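import Mathlib

set_option autoImplicit false

namespace Pool.Agent.Results.MP_09575c_lc.Cex
open Finset

/-- submodular real function on a lattice -/
def Submod {L : Type} [Lattice L] (f : L → ℝ) : Prop := ∀ u v, f (u ⊓ v) + f (u ⊔ v) ≤ f u + f v

/-- the Boolean cube -/
abbrev B (k : ℕ) := Fin k → Bool

/-- expressible by binary submodular functions -/
def Expr {n : ℕ} (f : B n → ℝ) : Prop :=
  ∃ (j r : ℕ) (g : Fin r → Bool × Bool → ℝ) (α : Fin r → ℝ) (z z' : Fin r → Fin n ⊕ Fin j) (κ : ℝ),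
    (∀ i, Submod (g i)) ∧ (∀ i, 0 ≤ α i) ∧ ∀ x, IsLeast (Set.range fun y : B j =>
      ∑ i, α i * g i (Sum.elim x y (z i), Sum.elim x y (z' i)) + κ) (f x)

open Classical in
/-- upper fans -/
def Upper {k : ℕ} (φ : B k → ℝ) : Prop :=
  ∃ A : Finset (B k), (∀ a ∈ A, ∀ b ∈ A, a ≠ b → ¬ a ≤ b ∧ a ⊔ b = A.sup id) ∧
    ∀ x, φ x = if A.sup id ≤ x then -2 else if ∃ a ∈ A, a ≤ x then -1 else 0

open Classical in
/-- lower fans -/
def Lower {k : ℕ} (φ : B k → ℝ) : Prop :=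
  ∃ A : Finset (B k), (∀ a ∈ A, ∀ b ∈ A, a ≠ b → ¬ a ≤ b ∧ a ⊓ b = A.inf id) ∧
    ∀ x, φ x = if x ≤ A.inf id then -2 else if ∃ a ∈ A, x ≤ a then -1 else 0

/-- nonnegative combination of fans plus a constant -/
def InCone {k : ℕ} (f : B k → ℝ) : Prop :=
  ∃ (r : ℕ) (φ : Fin r → B k → ℝ) (c : Fin r → ℝ) (κ : ℝ), (∀ i, Upper (φ i) ∨ Lower (φ i)) ∧
    (∀ i, 0 ≤ c i) ∧ ∀ x, f x = ∑ i, c i * φ i x + κ

open Classical in
theorem fan {L : Type} [DistribLattice L] {A : Finset L} {T : L} {φ : L → ℝ}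
    (h1 : ∀ a ∈ A, ∀ b ∈ A, a ≠ b → a ⊔ b = T) (h2 : ∀ a ∈ A, a ≤ T)
    (h : ∀ x, φ x = if T ≤ x then -2 else if ∃ a ∈ A, a ≤ x then -1 else 0) :
    Submod φ ∧ (∀ x y, x ⊓ T = y ⊓ T → φ x = φ y) ∧ ∀ u v u' v', u ⊔ v = u' ⊓ v' → T ≤ u' ⊔ v' →
      ¬ T ≤ u' → ¬ T ≤ v' →
      φ u + φ v - φ (u ⊓ v) - φ (u ⊔ v) ≤ φ u' + φ v' - φ (u' ⊓ v') - φ (u' ⊔ v') := by
  have m : ∀ x y, x ≤ y → (∃ a ∈ A, a ≤ x) → ∃ a ∈ A, a ≤ y := fun x y e ⟨a, b, c⟩ =>
    ⟨a, b, c.trans e⟩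
  obtain ⟨g, hg⟩ : ∃ g : L → Prop, ∀ x, (∃ a ∈ A, a ≤ x) ↔ g x := ⟨_, fun _ => Iff.rfl⟩
  have h' : ∀ x, φ x = if T ≤ x then -2 else if g x then -1 else 0 := fun x => by simp [h, hg]
  refine ⟨fun u v => ?_, fun x y e => ?_, fun u v u' v' e a b c => ?_⟩
  · have := m u _ (le_sup_left (b := v))
    have := m v _ (le_sup_right (a := u))
    have : T ≤ u → (∃ a ∈ A, a ≤ v) → ∃ a ∈ A, a ≤ u ⊓ v := fun e ⟨a, b, c⟩ =>
      ⟨a, b, le_inf ((h2 a b).trans e) c⟩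
    have : T ≤ v → (∃ a ∈ A, a ≤ u) → ∃ a ∈ A, a ≤ u ⊓ v := fun e ⟨a, b, c⟩ =>
      ⟨a, b, le_inf c ((h2 a b).trans e)⟩
    have : (∃ a ∈ A, a ≤ u) → (∃ a ∈ A, a ≤ v) → T ≤ u ⊔ v ∨ ∃ a ∈ A, a ≤ u ⊓ v :=
      fun ⟨a, b, c⟩ ⟨a', b', c'⟩ => (_root_.em (a = a')).elim (fun e => .inr ⟨a, b, le_inf c (e ▸ c')⟩)
        fun e => .inl (h1 a b a' b' e ▸ sup_le_sup c c')
    have : T ≤ u → T ≤ u ⊔ v := le_sup_of_le_left
    have : T ≤ v → T ≤ u ⊔ v := le_sup_of_le_right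
    clear m h h1 h2
    simp only [h', hg, le_inf_iff (c := T)] at *
    grind
  · have : ∀ a ≤ T, a ≤ x ↔ a ≤ y := fun a b => by
      rw [← and_iff_left (a := a ≤ x) b, ← le_inf_iff, e, le_inf_iff, and_iff_left b]
    simp only [h, this T le_rfl, exists_congr fun a => and_congr_right fun b => this a (h2 a b)]
  · have := m u _ (le_sup_left (b := v))
    have := m v _ (le_sup_right (a := u))
    have := m _ u (inf_le_left (b := v))
    have := m _ v (inf_le_right (a := u))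
    have := m _ u' (inf_le_left (b := v'))
    have := m _ v' (inf_le_right (a := u'))
    have : ¬ T ≤ u := fun d => b ((le_sup_of_le_left d).trans (e.le.trans inf_le_left))
    have : ¬ T ≤ v := fun d => b ((le_sup_of_le_right d).trans (e.le.trans inf_le_left))
    rw [e] at *
    clear m h h1 h2 e
    simp only [h', hg, le_inf_iff (c := T)] at *
    grind

instance (u v : B 6) : Decidable (u ≤ v) := inferInstanceAs (Decidable (∀ i, u i ≤ v i))

def P (s : Finset (Fin 6)) : B 6 := fun i => decide (i ∈ s)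

def gap (φ : B 6 → ℝ) (s t : Finset (Fin 6)) : ℝ :=
  φ (P s) + φ (P t) - φ (P s ⊓ P t) - φ (P s ⊔ P t)

def Λ (φ : B 6 → ℝ) : ℝ := gap φ {0, 1, 2, 4} {0, 1, 3, 4} + gap φ {0, 1, 2, 5} {0, 1, 3, 5} +
  gap φ {1, 2} {1, 3} + gap φ {0, 2} {0, 3} + gap φ {0, 1, 2, 3, 4} {0, 1, 2, 3, 5} +
  gap φ {0} {1} - gap φ {0, 1, 2} {0, 1, 3}

theorem key {φ : B 6 → ℝ} (s : Submod φ) (h : (∃ z, ∀ x y, (∀ i ≠ z, x i = y i) → φ x = φ y) ∨
    gap φ {0, 1, 2} {0, 1, 3} ≤ gap φ {0, 1, 2, 3, 4} {0, 1, 2, 3, 5} ∨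
    gap φ {0, 1, 2} {0, 1, 3} ≤ gap φ {0} {1}) : 0 ≤ Λ φ := by
  have g : ∀ a b, 0 ≤ gap φ a b := fun a b => by have := s (P a) (P b); unfold gap; linarith
  have g1 := g {0, 1, 2, 4} {0, 1, 3, 4}
  have g2 := g {0, 1, 2, 5} {0, 1, 3, 5}
  have g3 := g {1, 2} {1, 3}
  have g4 := g {0, 2} {0, 3}
  have g5 := g {0, 1, 2, 3, 4} {0, 1, 2, 3, 5}
  have g6 := g {0} {1}
  unfold Λ
  rcases h with ⟨z, h⟩ | h | h
  · have e : ∀ a b, (∀ i ≠ z, P {0, 1, 2} i = P a i) → (∀ i ≠ z, P {0, 1, 3} i = P b i) →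
        gap φ {0, 1, 2} {0, 1, 3} = gap φ a b := fun a b x y => by
      unfold gap
      rw [h _ _ x, h _ _ y, h (_ ⊓ _) (P a ⊓ P b) fun i c => by simp [x i c, y i c],
        h (_ ⊔ _) (P a ⊔ P b) fun i c => by simp [x i c, y i c]]
    have e0 : ∀ a b, P a ≤ P b ∨ P b ≤ P a → gap φ a b = 0 := fun a b c => by
      rcases c with c | c <;> simp [gap, inf_of_le_left, inf_of_le_right, sup_of_le_left,
        sup_of_le_right, c]
    fin_cases z
    · linarith [e {1, 2} {1, 3} (by decide) (by decide)]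
    · linarith [e {0, 2} {0, 3} (by decide) (by decide)]
    · linarith [e {0, 1} {0, 1, 3} (by decide) (by decide), e0 {0, 1} {0, 1, 3} (by decide)]
    · linarith [e {0, 1, 2} {0, 1} (by decide) (by decide), e0 {0, 1, 2} {0, 1} (by decide)]
    · linarith [e {0, 1, 2, 4} {0, 1, 3, 4} (by decide) (by decide)]
    · linarith [e {0, 1, 2, 5} {0, 1, 3, 5} (by decide) (by decide)]
  all_goals linarith

theorem fan_nonneg {φ : B 6 → ℝ} (h : Upper φ ∨ Lower φ) : 0 ≤ Λ φ := by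
  rcases h with ⟨A, a, b⟩ | ⟨A, a, b⟩
  · obtain ⟨c, d, e⟩ := fan (fun x h y h' e => (a x h y h' e).2) (fun _ => le_sup (f := id)) b
    refine key c ?_
    by_cases t : A.sup id = ⊤
    · exact .inr (.inl (e _ _ _ _ (by decide) (by rw [t]; decide) (by rw [t]; decide)
        (by rw [t]; decide)))
    obtain ⟨z, hz⟩ := Function.ne_iff.1 t
    refine .inl ⟨z, fun x y h => d x y (funext fun i => ?_)⟩
    by_cases c : i = z
    · simp [c, show A.sup id z = false by simpa using hz]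
    · simp [h i c]
  · have a' : ∀ x ∈ A, A.inf id ≤ x := fun _ => inf_le (f := id)
    generalize A.inf id = T at a b a'
    obtain ⟨c, d, e⟩ := fan (L := (B 6)ᵒᵈ) (A := A) (T := T) (φ := φ)
      (fun x h y h' e => (a x h y h' e).2) a' b
    refine key (fun u v => (add_comm _ _).le.trans (c u v)) ?_
    by_cases t : T = ⊥
    · have := e (P {0, 1, 2}) (P {0, 1, 3}) (P {0}) (P {1})
        (show P {0, 1, 2} ⊓ P {0, 1, 3} = P {0} ⊔ P {1} by decide)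
        (show P {0} ⊓ P {1} ≤ T by rw [t]; decide) (show ¬ P {0} ≤ T by rw [t]; decide)
        (show ¬ P {1} ≤ T by rw [t]; decide)
      refine .inr (.inr ?_)
      change φ _ + φ _ - φ (P _ ⊔ P _) - φ (P _ ⊓ P _) ≤
        φ _ + φ _ - φ (P _ ⊔ P _) - φ (P _ ⊓ P _) at this
      unfold gap; linarith
    obtain ⟨z, hz⟩ := Function.ne_iff.1 t
    refine .inl ⟨z, fun x y h => d x y (show x ⊔ T = y ⊔ T from funext fun i => ?_)⟩
    by_cases c : i = z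
    · simp [c, show T z = true by simpa using hz]
    · simp [h i c]

def w (x : B 6) : ℤ := ∑ i, if x i then 1 else 0

theorem result : ∃ k ≥ 5, ∃ f : B k → ℝ, Submod f ∧ Expr f ∧ ¬ InCone f := by
  refine ⟨6, by norm_num, fun x => (min 0 (3 - w x) : ℤ), fun u v => ?_, ⟨1, 6,
    fun _ p => if p.2 then (if p.1 then -1 / 2 else 1 / 2) else 0, fun _ => 1, .inl,
    fun _ => .inr 0, 0, fun _ ⟨a, b⟩ ⟨c, d⟩ => ?_, by simp, fun x => ?_⟩, ?_⟩
  · simp only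
    exact_mod_cast (by decide +kernel : ∀ u v : B 6, min 0 (3 - w (u ⊓ v)) + min 0 (3 - w (u ⊔ v)) ≤
      min 0 (3 - w u) + min 0 (3 - w v)) u v
  · cases a <;> cases b <;> cases c <;> cases d <;> norm_num
  · have e : ∑ i, (if x i then -1 / 2 else 1 / 2 : ℝ) = (3 - w x : ℤ) := by
      simp only [w, Fin.sum_univ_six]
      push_cast
      split_ifs <;> norm_num
    refine ⟨?_, ?_⟩
    · rcases le_total 0 (3 - w x) with h | h
      · exact ⟨fun _ => false, by simp [min_eq_left h]⟩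
      · exact ⟨fun _ => true, by simpa [min_eq_right h] using e⟩
    · rintro _ ⟨y, rfl⟩
      cases h : y 0
      · simp [h]
      · simp only [Sum.elim_inl, Sum.elim_inr, h, if_true, one_mul, add_zero]
        exact (Int.cast_le.2 (min_le_right _ _)).trans e.ge
  · rintro ⟨r, φ, c, κ, a, b, e⟩
    have : Λ (fun x => ∑ i, c i * φ i x + κ) = ∑ i, c i * Λ (φ i) := by
      simp only [Λ, gap, mul_add, mul_sub, sum_add_distrib, sum_sub_distrib]; ring
    rw [← funext e] at this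
    have h := sum_nonneg fun i (_ : i ∈ univ) => mul_nonneg (b i) (fan_nonneg (a i))
    rw [← this] at h
    simp only [Λ, gap] at h
    norm_cast at h

end Pool.Agent.Results.MP_09575c_lc.Cex
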